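import Pool.Agent.Helper78.GW.Lib

/-! # Project GW, module CL1: a long smooth block (helper78) -/

set_option autoImplicit false

namespace Pool.Agent.Helper78.GW

open Finset ArithmeticFunction MeasureTheory Filter
open Pool.Agent.Helper23.GK
open Pool.Agent.Helper63.GW

/-- `∫ (1+t²)^{-3/4}` -/
private noncomputable def c3 : ℝ := ∫ t : ℝ, (1 + ‖t‖ ^ 2) ^ (-(3 / 2 : ℝ) / 2)

private lemma int_c3 : Integrable (fun t : ℝ => (1 + ‖t‖ ^ 2) ^ (-(3 / 2 : ℝ) / 2)) :=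
  integrable_rpow_neg_one_add_norm_sq (by simp; norm_num)

private lemma c3_nonneg : 0 ≤ c3 := integral_nonneg fun t => by positivity

/-- the low part: `∫ rg a b (1/(1+t²)) ≤ c₃ / √a` -/
private lemma int_F1 (a b : ℝ) (ha : 1 ≤ a) :
    ∫ t : ℝ, rg a b (fun t => (((1 / (1 + t ^ 2) : ℝ)) : ℂ)) t ≤ c3 / √a := by
  have h1 : ∀ t : ℝ, rg a b (fun t => (((1 / (1 + t ^ 2) : ℝ)) : ℂ)) t ≤
      1 / √a * (1 + ‖t‖ ^ 2) ^ (-(3 / 2 : ℝ) / 2) := by
    intro t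
    have hap : 0 < √a := Real.sqrt_pos.2 (by linarith)
    have hpos : 0 < 1 + ‖t‖ ^ 2 := by positivity
    unfold rg
    split_ifs with h
    · have hn : ‖(((1 / (1 + t ^ 2) : ℝ)) : ℂ)‖ = 1 / (1 + t ^ 2) := by
        rw [Complex.norm_real, Real.norm_eq_abs, abs_of_nonneg (by positivity)]
      rw [hn]
      have e1 : ‖t‖ ^ 2 = t ^ 2 := by rw [Real.norm_eq_abs, sq_abs]
      rw [e1] at hpos ⊢
      have h2 : √a ≤ (1 + t ^ 2) ^ (1 / 4 : ℝ) := by
        have h3 : a ^ 2 ≤ 1 + t ^ 2 := by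
          have : a ^ 2 ≤ |t| ^ 2 := by
            gcongr; exact h.1
          rw [sq_abs] at this; linarith
        calc √a = (a ^ 2) ^ (1 / 4 : ℝ) := by
              rw [Real.sqrt_eq_rpow, ← Real.rpow_natCast a 2, ← Real.rpow_mul (by linarith)]
              norm_num
          _ ≤ (1 + t ^ 2) ^ (1 / 4 : ℝ) := Real.rpow_le_rpow (by positivity) h3 (by norm_num)
      have h4 : (1 + t ^ 2) ^ (-(3 / 2 : ℝ) / 2) = (1 + t ^ 2) ^ (1 / 4 : ℝ) / (1 + t ^ 2) := by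
        rw [show (-(3 / 2 : ℝ) / 2) = 1 / 4 - 1 by norm_num, Real.rpow_sub hpos, Real.rpow_one]
      rw [h4]
      calc 1 / (1 + t ^ 2) = 1 / √a * (√a / (1 + t ^ 2)) := by field_simp
        _ ≤ 1 / √a * ((1 + t ^ 2) ^ (1 / 4 : ℝ) / (1 + t ^ 2)) := by gcongr
    · positivity
  calc ∫ t : ℝ, rg a b (fun t => (((1 / (1 + t ^ 2) : ℝ)) : ℂ)) t
      ≤ ∫ t : ℝ, 1 / √a * (1 + ‖t‖ ^ 2) ^ (-(3 / 2 : ℝ) / 2) :=
        integral_mono_of_nonneg (Eventually.of_forall fun t => rg_nonneg a b _ t)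
          (int_c3.const_mul _) (Eventually.of_forall h1)
    _ = 1 / √a * c3 := by rw [integral_const_mul]; rfl
    _ = c3 / √a := by ring

private lemma nq_add (hNqp : StNqp) (W : ℝ) (hW : 1 ≤ W) (F G : ℝ → ℝ) (hF : NF F) (hG : NF G) :
    NQ W (fun s => F s + G s) ≤ 2 * (NQ W F + NQ W G) := by
  have h := (hNqp W hW).2.1 (Fin 2) univ ![F, G] (by
    intro i _
    fin_cases i
    · exact hF
    · exact hG)
  simpa [Fin.sum_univ_two] using h

theorem hCL1 : StBks → StBkb → StMea8 → StNfb → StNqp → StCl1 := by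
  intro hBks hBkb hMea hNfb hNqp A B D ε hε hε2
  classical
  obtain ⟨C, hC⟩ := hMea
  obtain ⟨C1, hC1, hBks⟩ := hBks
  -- constants
  set K1 : ℝ := 4 * C1 with hK1
  set K2 : ℝ := 2 * 16 ^ 7 * K1 with hK2
  have hK1p : 0 < K1 := by positivity
  have hK2p : 0 < K2 := by positivity
  set KK : ℝ := 16 * K1 ^ 2 * C * 4 ^ C * 64 with hKK
  have hc3 := c3_nonneg
  obtain ⟨X2, hX2⟩ := eventually_atTop.1 ((ev_log 5).and ((ev_log (8 * K2 ^ 2 * c3 ^ 2 + 1)).and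
    (ev_pow (ε / 2) (by linarith) (4 * KK + 1) (A + 4 * B + 2 + C + 2 * D))))
  refine ⟨4 * B + 16 + A + 1, max X2 1, ?_⟩
  intro B1 hB1' X hX q _ χ e i₀ W hq hXe heX hi4 hXi hW1 hW2
  have hXX2 : X2 ≤ X := le_trans (le_max_left _ _) hX
  have hX0 : 1 ≤ X := le_trans (le_max_right _ _) hX
  obtain ⟨hL5, hLK, hpow⟩ := hX2 X hXX2
  set L := Real.log X with hL
  have hLpos : 0 < L := by linarith
  have hL1 : 1 ≤ L := by linarith
  have hXp : (0 : ℝ) < X := by exact_mod_cast hX0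
  have hX1r : (1 : ℝ) ≤ X := by exact_mod_cast hX0
  set a := L ^ B1 with ha
  set b := √X * L ^ D with hb
  have ha1 : 1 ≤ a := one_le_pow₀ hL1
  have hap : 0 < a := by linarith
  have hsqrt1 : 1 ≤ √(X : ℝ) := by rw [Real.one_le_sqrt]; exact hX1r
  have hb1 : 1 ≤ b := by
    rw [hb]; exact one_le_mul_of_one_le_of_one_le hsqrt1 (one_le_pow₀ hL1)
  have hbp : 0 < b := by linarith
  set S : Finset (Fin 8) := univ.erase i₀ with hS
  have hsum : e i₀ + ∑ i ∈ S, e i = ∑ i, e i := sum_erase e i₀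
  set P : ℝ := 2 ^ (∑ i ∈ S, e i) with hP
  set N : ℝ := 2 ^ e i₀ with hN
  have hPpos : 0 < P := by positivity
  have hNpos : 0 < N := by positivity
  have hN1 : 1 ≤ N := one_le_pow₀ (by norm_num)
  have hPN : (X : ℝ) ≤ 16 * (P * N) := by
    have h1 : (X : ℝ) ≤ 16 * 2 ^ (∑ i, e i) := by exact_mod_cast hXe
    rw [← hsum, pow_add] at h1
    rw [hP, hN]; linarith
  have hetot := sum_le_log hX0 hL5 heX
  have heS : 1 + ∑ i ∈ S, (e i : ℝ) ≤ 4 * L := by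
    have h2 : ((∑ i ∈ S, e i : ℕ) : ℝ) ≤ ((∑ i, e i : ℕ) : ℝ) := by
      exact_mod_cast (by omega : ∑ i ∈ S, e i ≤ ∑ i, e i)
    push_cast at hetot h2 ⊢
    linarith
  have hei : ∀ i, 1 + (e i : ℝ) ≤ 4 * L := by
    intro i
    have h2 : ((e i : ℕ) : ℝ) ≤ ((∑ i, e i : ℕ) : ℝ) := by
      exact_mod_cast Finset.single_le_sum (f := e) (fun _ _ => Nat.zero_le _) (mem_univ i)
    linarith
  -- the product of the other blocks
  set G : ℝ → ℂ := fun t => ∏ i ∈ S, bk χ i (e i) t with hG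
  have hGcont : Continuous G := cont_prod hBkb χ e S
  have hGle : ∀ t, ‖G t‖ ≤ (16 * L) ^ 7 := by
    intro t
    rw [hG]
    simp only [norm_prod]
    have hcard : S.card = 7 := by
      rw [hS, card_erase_of_mem (mem_univ _), card_univ, Fintype.card_fin]
    calc ∏ i ∈ S, ‖bk χ i (e i) t‖ ≤ ∏ i ∈ S, (16 * L) := by
          refine Finset.prod_le_prod (fun i _ => norm_nonneg _) (fun i _ => ?_)
          refine (hBkb.2.2.2 q χ i (e i) t).trans ?_
          have := hei i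
          linarith
      _ = (16 * L) ^ 7 := by rw [prod_const, hcard]
  -- the two parts
  set κ : ℝ := K1 * L ^ (2 * B + 1) * (1 / √N + √b / N) with hκ
  have hκ0 : 0 ≤ κ := by positivity
  set f1 : ℝ → ℂ := fun t => (((1 / (1 + t ^ 2) : ℝ)) : ℂ) with hf1
  have hf1cont : Continuous f1 := by
    rw [hf1]
    refine Complex.continuous_ofReal.comp ?_
    refine Continuous.div continuous_const (by fun_prop) (fun t => by positivity)
  set F1 : ℝ → ℝ := fun t => (K2 * L ^ (2 * B + 8)) * rg a b f1 t with hF1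
  set F2 : ℝ → ℝ := fun t => κ * rg a b G t with hF2
  obtain ⟨hNF1, hNF2, hNF3, hNF4, hNF5, -⟩ := hNfb
  have hNFf1 : NF (rg a b f1) := hNF5 a b f1 hf1cont
  have hNFG : NF (rg a b G) := hNF5 a b G hGcont
  have hNFF1 : NF F1 := hNF3 _ _ (by positivity) hNFf1
  have hNFF2 : NF F2 := hNF3 _ _ hκ0 hNFG
  have hNFP : NF (rg a b (PP8 χ e)) := by
    refine hNF5 a b _ ?_
    have : PP8 χ e = fun t => ∏ i ∈ (univ : Finset (Fin 8)), bk χ i (e i) t := rfl
    rw [this]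
    exact cont_prod hBkb χ e univ
  have hle : ∀ t, rg a b (PP8 χ e) t ≤ F1 t + F2 t := by
    intro t
    simp only [hF1, hF2]
    unfold rg
    by_cases h : a ≤ |t| ∧ |t| ≤ b
    · simp only [if_pos h]
      have ht1 : 1 ≤ |t| := ha1.trans h.1
      have ht2 : (1 : ℝ) ≤ t ^ 2 := by
        rw [← sq_abs]; exact one_le_pow₀ ht1
      have htp : 0 < t ^ 2 := by linarith
      have e1 : PP8 χ e t = bk χ i₀ (e i₀) t * G t := congrFun (PP8_split χ e i₀) t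
      rw [e1, norm_mul]
      have h2 := hBks q χ i₀ (e i₀) t hi4 ht1
      have hnf : ‖f1 t‖ = 1 / (1 + t ^ 2) := by
        rw [hf1]
        simp only
        rw [Complex.norm_real, Real.norm_eq_abs, abs_of_nonneg (by positivity)]
      have h3 : ‖bk χ i₀ (e i₀) t‖ ≤ K1 * L ^ (2 * B + 1) * (2 / (1 + t ^ 2)) + κ := by
        have hq2 : (q : ℝ) ^ 2 ≤ L ^ (2 * B) := by
          calc (q : ℝ) ^ 2 ≤ (L ^ B) ^ 2 := by gcongr
            _ = L ^ (2 * B) := by rw [← pow_mul, mul_comm]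
        have h4 : 1 / t ^ 2 ≤ 2 / (1 + t ^ 2) := by
          rw [div_le_div_iff₀ htp (by positivity)]; linarith
        have h5 : √|t| / 2 ^ e i₀ ≤ √b / N := by
          rw [← hN]
          gcongr
          exact h.2
        have h6 : (1 : ℝ) / √((2 : ℝ) ^ e i₀) = 1 / √N := by rw [hN]
        calc ‖bk χ i₀ (e i₀) t‖ ≤ _ := h2
          _ ≤ C1 * L ^ (2 * B) * (4 * L) * (2 / (1 + t ^ 2) + 1 / √N + √b / N) := by
              rw [h6]
              have := hei i₀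
              gcongr
          _ = K1 * L ^ (2 * B + 1) * (2 / (1 + t ^ 2)) + κ := by
              rw [hκ, hK1, pow_add, pow_one]; ring
      have h7 : K1 * L ^ (2 * B + 1) * (2 / (1 + t ^ 2)) * (16 * L) ^ 7 =
          K2 * L ^ (2 * B + 8) * ‖f1 t‖ := by
        rw [hnf, hK2, mul_pow, show 2 * B + 8 = (2 * B + 1) + 7 by ring, pow_add L (2 * B + 1) 7]
        ring
      calc ‖bk χ i₀ (e i₀) t‖ * ‖G t‖
          ≤ (K1 * L ^ (2 * B + 1) * (2 / (1 + t ^ 2)) + κ) * ‖G t‖ := by gcongr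
        _ = K1 * L ^ (2 * B + 1) * (2 / (1 + t ^ 2)) * ‖G t‖ + κ * ‖G t‖ := by ring
        _ ≤ K1 * L ^ (2 * B + 1) * (2 / (1 + t ^ 2)) * (16 * L) ^ 7 + κ * ‖G t‖ := by
            have := hGle t
            gcongr
        _ = K2 * L ^ (2 * B + 8) * ‖f1 t‖ + κ * ‖G t‖ := by rw [h7]
    · simp only [if_neg h, mul_zero, add_zero, le_refl]
  obtain ⟨hQ1, -, -, hQ4, hQ5, -, -, hQ8⟩ := hNqp W hW1
  have hstep1 : NQ W (rg a b (PP8 χ e)) ≤ 2 * (NQ W F1 + NQ W F2) :=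
    (hQ1 _ _ hNFP (hNF1 _ _ hNFF1 hNFF2) hle).trans (nq_add hNqp W hW1 F1 F2 hNFF1 hNFF2)
  -- first part
  have hpart1 : 2 * NQ W F1 ≤ 1 / 2 * (1 / L ^ A) := by
    have h1 := hQ4 F1 hNFF1
    have h2 : ∫ s, F1 s ≤ K2 * L ^ (2 * B + 8) * (c3 / √a) := by
      rw [hF1, integral_const_mul]
      gcongr
      exact int_F1 a b ha1
    have h20 : 0 ≤ ∫ s, F1 s := integral_nonneg fun s => hNFF1.2.1 s
    have h3 : (∫ s, F1 s) ^ 2 ≤ K2 ^ 2 * c3 ^ 2 * (L ^ (4 * B + 16) / a) := by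
      calc (∫ s, F1 s) ^ 2 ≤ (K2 * L ^ (2 * B + 8) * (c3 / √a)) ^ 2 := by gcongr
        _ = K2 ^ 2 * c3 ^ 2 * ((L ^ (2 * B + 8)) ^ 2 / (√a) ^ 2) := by ring
        _ = K2 ^ 2 * c3 ^ 2 * (L ^ (4 * B + 16) / a) := by
            rw [Real.sq_sqrt hap.le, ← pow_mul]
            congr 3; ring
    have h4 : L ^ (4 * B + 16) / a ≤ 1 / L ^ (A + 1) := by
      rw [ha, div_le_div_iff₀ (by positivity) (by positivity), one_mul, ← pow_add]
      exact pow_le_pow_right₀ hL1 (by omega)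
    calc 2 * NQ W F1 ≤ 2 * (2 * (∫ s, F1 s) ^ 2) := by gcongr
      _ ≤ 2 * (2 * (K2 ^ 2 * c3 ^ 2 * (1 / L ^ (A + 1)))) := by
          gcongr
          refine h3.trans ?_
          gcongr
      _ = (4 * K2 ^ 2 * c3 ^ 2 / L) * (1 / L ^ A) := by
          rw [pow_add, pow_one, one_div (L ^ A * L), mul_inv]; ring
      _ ≤ 1 / 2 * (1 / L ^ A) := by
          refine mul_le_mul_of_nonneg_right ?_ (by positivity)
          rw [div_le_iff₀ hLpos]
          linarith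
  -- second part
  have hpart2 : 2 * NQ W F2 ≤ 1 / 2 * (1 / L ^ A) := by
    have h1 := hQ5 F2 hNFF2
    have h2 : ∫ s, F2 s ^ 2 ≤ κ ^ 2 * (C * (b / P + 1) * (4 * L) ^ C) := by
      have e1 : (fun s => F2 s ^ 2) = fun s => κ ^ 2 * rg a b G s ^ 2 := by
        funext s; rw [hF2]; ring
      rw [e1, integral_const_mul]
      gcongr
      refine (rg_sq_int hBkb hC χ e S a b hb1).trans ?_
      have h0 : 0 ≤ 1 + ∑ i ∈ S, (e i : ℝ) := by positivity
      rw [← hP]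
      gcongr
    have hκ2 : κ ^ 2 ≤ K1 ^ 2 * L ^ (4 * B + 2) * (2 * (1 / N + b / N ^ 2)) := by
      have h3 : (1 / √N + √b / N) ^ 2 ≤ 2 * (1 / N + b / N ^ 2) := by
        have h4 : (1 / √N + √b / N) ^ 2 ≤ 2 * ((1 / √N) ^ 2 + (√b / N) ^ 2) := by
          nlinarith [sq_nonneg (1 / √N - √b / N)]
        rw [div_pow, div_pow, Real.sq_sqrt hNpos.le, Real.sq_sqrt hbp.le, one_pow] at h4
        exact h4
      calc κ ^ 2 = K1 ^ 2 * (L ^ (2 * B + 1)) ^ 2 * (1 / √N + √b / N) ^ 2 := by rw [hκ]; ring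
        _ ≤ K1 ^ 2 * (L ^ (2 * B + 1)) ^ 2 * (2 * (1 / N + b / N ^ 2)) := by gcongr
        _ = K1 ^ 2 * L ^ (4 * B + 2) * (2 * (1 / N + b / N ^ 2)) := by
            rw [← pow_mul]; congr 3; ring
    have hbP : b / P ≤ 16 * b * N / X := by
      rw [div_le_div_iff₀ hPpos hXp]
      nlinarith
    -- the four products
    have hprod : W * (1 / N + b / N ^ 2) * (b / P + 1) ≤ 64 * (X : ℝ) ^ (-(ε / 2)) * L ^ (2 * D) := by
      have hLD : 1 ≤ L ^ D := one_le_pow₀ hL1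
      have hLDp : 0 < L ^ D := by linarith
      have hL2D : L ^ (2 * D) = L ^ D * L ^ D := by rw [two_mul, pow_add]
      have hWp : 0 < W := by linarith
      have hXN : (X : ℝ) ^ (7 / 20 - ε / 4) ≤ N := hXi
      have hX720 : 0 < (X : ℝ) ^ (7 / 20 - ε / 4) := Real.rpow_pos_of_pos hXp _
      have hmono : ∀ s : ℝ, s ≤ -(ε / 2) → (X : ℝ) ^ s ≤ (X : ℝ) ^ (-(ε / 2)) := fun s hs =>
        Real.rpow_le_rpow_of_exponent_le hX1r hs
      -- W / N
      have hWN : W / N ≤ (X : ℝ) ^ (-(ε / 2)) := by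
        calc W / N ≤ (X : ℝ) ^ (1 / 5 - ε) / (X : ℝ) ^ (7 / 20 - ε / 4) := by gcongr
          _ = (X : ℝ) ^ ((1 / 5 - ε) - (7 / 20 - ε / 4)) := (Real.rpow_sub hXp _ _).symm
          _ ≤ (X : ℝ) ^ (-(ε / 2)) := hmono _ (by linarith)
      -- W b / X
      have hWbX : W * b / X ≤ (X : ℝ) ^ (-(ε / 2)) * L ^ D := by
        have e1 : √(X : ℝ) / X = (X : ℝ) ^ (-(1 / 2 : ℝ)) := by
          rw [Real.sqrt_eq_rpow, ← Real.rpow_sub_one hXp.ne']
          norm_num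
        calc W * b / X = W * (√(X : ℝ) / X) * L ^ D := by rw [hb]; ring
          _ ≤ (X : ℝ) ^ (1 / 5 - ε) * (√(X : ℝ) / X) * L ^ D := by gcongr
          _ = (X : ℝ) ^ ((1 / 5 - ε) + (-(1 / 2 : ℝ))) * L ^ D := by
              rw [e1, Real.rpow_add hXp]
          _ ≤ (X : ℝ) ^ (-(ε / 2)) * L ^ D := by
              gcongr
              linarith
      -- W b / N²
      have hWbN : W * b / N ^ 2 ≤ (X : ℝ) ^ (-(ε / 2)) * L ^ D := by
        have e1 : ((X : ℝ) ^ (7 / 20 - ε / 4)) ^ 2 = (X : ℝ) ^ (7 / 10 - ε / 2) := by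
          rw [← Real.rpow_natCast, ← Real.rpow_mul hXp.le]
          congr 1; push_cast; ring
        calc W * b / N ^ 2 ≤ (X : ℝ) ^ (1 / 5 - ε) * b / ((X : ℝ) ^ (7 / 20 - ε / 4)) ^ 2 := by
              gcongr
          _ = ((X : ℝ) ^ (1 / 5 - ε) * (X : ℝ) ^ (1 / 2 : ℝ) / (X : ℝ) ^ (7 / 10 - ε / 2)) * L ^ D := by
              rw [e1, hb, Real.sqrt_eq_rpow]; ring
          _ = (X : ℝ) ^ ((1 / 5 - ε) + (1 / 2 : ℝ) - (7 / 10 - ε / 2)) * L ^ D := by
              rw [Real.rpow_sub hXp ((1 / 5 - ε) + (1 / 2 : ℝ)) (7 / 10 - ε / 2),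
                Real.rpow_add hXp (1 / 5 - ε) (1 / 2 : ℝ)]
          _ ≤ (X : ℝ) ^ (-(ε / 2)) * L ^ D := by
              gcongr
              linarith
      -- W b² / (N X)
      have hWbb : W * b ^ 2 / (N * X) ≤ (X : ℝ) ^ (-(ε / 2)) * L ^ (2 * D) := by
        have e1 : b ^ 2 = X * L ^ (2 * D) := by
          rw [hb, mul_pow, Real.sq_sqrt hXp.le, ← pow_mul, mul_comm D 2]
        calc W * b ^ 2 / (N * X) = W / N * L ^ (2 * D) := by
              rw [e1]; field_simp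
          _ ≤ _ := by gcongr
      set Y := (X : ℝ) ^ (-(ε / 2)) with hY
      have hYp : 0 < Y := Real.rpow_pos_of_pos hXp _
      have hDle : L ^ D ≤ L ^ (2 * D) := pow_le_pow_right₀ hL1 (by omega)
      have h1D : 1 ≤ L ^ (2 * D) := one_le_pow₀ hL1
      calc W * (1 / N + b / N ^ 2) * (b / P + 1)
          ≤ W * (1 / N + b / N ^ 2) * (16 * b * N / X + 1) := by gcongr
        _ = 16 * (W * b / X) + W / N + 16 * (W * b ^ 2 / (N * X)) + W * b / N ^ 2 := by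
            field_simp
            ring
        _ ≤ 16 * (Y * L ^ D) + Y + 16 * (Y * L ^ (2 * D)) + Y * L ^ D := by gcongr
        _ ≤ 16 * (Y * L ^ (2 * D)) + Y * L ^ (2 * D) + 16 * (Y * L ^ (2 * D)) +
              Y * L ^ (2 * D) := by
            have h5 : Y ≤ Y * L ^ (2 * D) := le_mul_of_one_le_right hYp.le h1D
            have h6 : Y * L ^ D ≤ Y * L ^ (2 * D) := by gcongr
            linarith
        _ ≤ 64 * Y * L ^ (2 * D) := by nlinarith [mul_pos hYp (lt_of_lt_of_le one_pos h1D)]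
    have hWp : 0 < W := by linarith
    have h5 : NQ W F2 ≤ KK / 2 * ((X : ℝ) ^ (-(ε / 2)) * L ^ (4 * B + 2 + C + 2 * D)) := by
      calc NQ W F2 ≤ 4 * W * ∫ s, F2 s ^ 2 := h1
        _ ≤ 4 * W * (κ ^ 2 * (C * (b / P + 1) * (4 * L) ^ C)) := by gcongr
        _ ≤ 4 * W * ((K1 ^ 2 * L ^ (4 * B + 2) * (2 * (1 / N + b / N ^ 2))) *
              (C * (b / P + 1) * (4 * L) ^ C)) := by gcongr
        _ = 8 * K1 ^ 2 * C * 4 ^ C * L ^ (4 * B + 2) * L ^ C *
              (W * (1 / N + b / N ^ 2) * (b / P + 1)) := by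
            rw [mul_pow]; ring
        _ ≤ 8 * K1 ^ 2 * C * 4 ^ C * L ^ (4 * B + 2) * L ^ C *
              (64 * (X : ℝ) ^ (-(ε / 2)) * L ^ (2 * D)) := by gcongr
        _ = KK / 2 * ((X : ℝ) ^ (-(ε / 2)) * L ^ (4 * B + 2 + C + 2 * D)) := by
            rw [hKK, pow_add L (4 * B + 2 + C) (2 * D), pow_add L (4 * B + 2) C]; ring
    have h6 : (X : ℝ) ^ (-(ε / 2)) * (X : ℝ) ^ (ε / 2) = 1 := by
      rw [← Real.rpow_add hXp]; simp
    have h7 : KK * ((X : ℝ) ^ (-(ε / 2)) * L ^ (4 * B + 2 + C + 2 * D)) ≤ 1 / 4 * (1 / L ^ A) := by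
      have h8 : (4 * KK + 1) * (L ^ A * L ^ (4 * B + 2 + C + 2 * D)) ≤ (X : ℝ) ^ (ε / 2) := by
        rw [← pow_add]
        have : A + (4 * B + 2 + C + 2 * D) = A + 4 * B + 2 + C + 2 * D := by ring
        rw [this]; exact hpow
      have hYp : 0 < (X : ℝ) ^ (-(ε / 2)) := Real.rpow_pos_of_pos hXp _
      have hKKp : 0 ≤ KK := by rw [hKK]; positivity
      have h9 : 4 * KK * (L ^ A * L ^ (4 * B + 2 + C + 2 * D)) ≤ (X : ℝ) ^ (ε / 2) := by
        refine le_trans ?_ h8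
        gcongr
        linarith
      have h10 : (X : ℝ) ^ (-(ε / 2)) * (4 * KK * (L ^ A * L ^ (4 * B + 2 + C + 2 * D))) ≤ 1 := by
        rw [← h6]; gcongr
      rw [div_mul_div_comm, one_mul, le_div_iff₀ (by positivity)]
      linarith
    have hKKp : 0 ≤ KK := by rw [hKK]; positivity
    have h11 : 0 ≤ 1 / L ^ A := by positivity
    calc 2 * NQ W F2 ≤ 2 * (KK / 2 * ((X : ℝ) ^ (-(ε / 2)) * L ^ (4 * B + 2 + C + 2 * D))) := by
          gcongr
      _ = KK * ((X : ℝ) ^ (-(ε / 2)) * L ^ (4 * B + 2 + C + 2 * D)) := by ring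
      _ ≤ 1 / 4 * (1 / L ^ A) := h7
      _ ≤ 1 / 2 * (1 / L ^ A) := by linarith
  calc NQ W (rg a b (PP8 χ e)) ≤ 2 * (NQ W F1 + NQ W F2) := hstep1
    _ = 2 * NQ W F1 + 2 * NQ W F2 := by ring
    _ ≤ 1 / 2 * (1 / L ^ A) + 1 / 2 * (1 / L ^ A) := add_le_add hpart1 hpart2
    _ = 1 / L ^ A := by ring

end Pool.Agent.Helper78.GW
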