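import Pool.Agent.Helper78.GW.Lib

/-! # Project GW, module CL3 (helper78) -/

set_option autoImplicit false

namespace Pool.Agent.Helper78.GW

open Finset ArithmeticFunction MeasureTheory Filter
open Pool.Agent.Helper23.GK
open Pool.Agent.Helper63.GW

theorem hCL3 : StMwl → StBkb → StMea8 → StNfb → StNqp → StCl3 := by
  intro hMwl hBkb hMea hNfb hNqp A B D
  classical
  obtain ⟨C, hC⟩ := hMea
  obtain ⟨B1₀, X1, hB1⟩ := hMwl (A + C + 1) B D
  obtain ⟨X2, hX2⟩ := eventually_atTop.1 ((ev_log 5).and ((ev_log (4 * C * 4 ^ C + 1)).and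
    (ev_pow (1 / 2) (by norm_num) 256 (3 * D))))
  refine ⟨B1₀, max (max X1 X2) 1, ?_⟩
  intro B1 hB1' X hX q _ χ e i j l W hq hXe heX hij hil hjl hl4 heli helj hXl hW1 hW2
  have hX1 : X1 ≤ X := le_trans (le_trans (le_max_left _ _) (le_max_left _ _)) hX
  have hXX2 : X2 ≤ X := le_trans (le_trans (le_max_right _ _) (le_max_left _ _)) hX
  have hX0 : 1 ≤ X := le_trans (le_max_right _ _) hX
  obtain ⟨hL5, hLC, hpow⟩ := hX2 X hXX2
  set L := Real.log X with hL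
  have hLpos : 0 < L := by linarith
  have hL1 : 1 ≤ L := by linarith
  have hXp : (0 : ℝ) < X := by exact_mod_cast hX0
  have hX1r : (1 : ℝ) ≤ X := by exact_mod_cast hX0
  set a := L ^ B1 with ha
  set b := √X * L ^ D with hb
  have hsqrt1 : 1 ≤ √(X : ℝ) := by rw [Real.one_le_sqrt]; exact hX1r
  have hb1 : 1 ≤ b := by
    rw [hb]; exact one_le_mul_of_one_le_of_one_le hsqrt1 (one_le_pow₀ hL1)
  -- sizes
  set S : Finset (Fin 8) := univ.erase l with hS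
  have hsum : e l + ∑ i ∈ S, e i = ∑ i, e i := sum_erase e l
  have hSl : 2 * e l ≤ ∑ i ∈ S, e i := by
    have h1 : ({i, j} : Finset (Fin 8)) ⊆ S := by
      intro z hz
      rw [mem_insert, mem_singleton] at hz
      rcases hz with rfl | rfl
      · exact mem_erase.2 ⟨hil, mem_univ _⟩
      · exact mem_erase.2 ⟨hjl, mem_univ _⟩
    have h2 := Finset.sum_le_sum_of_subset (f := e) h1
    rw [Finset.sum_pair hij] at h2
    omega
  set P : ℝ := 2 ^ (∑ i ∈ S, e i) with hP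
  set Q : ℝ := 2 ^ e l with hQ
  have hPpos : 0 < P := by positivity
  have hQpos : 0 < Q := by positivity
  have hQP : Q ^ 2 ≤ P := by
    rw [hQ, hP, ← pow_mul, mul_comm]
    exact pow_le_pow_right₀ (by norm_num) hSl
  have hPQ : (X : ℝ) ≤ 16 * (P * Q) := by
    have h1 : (X : ℝ) ≤ 16 * 2 ^ (∑ i, e i) := by exact_mod_cast hXe
    rw [← hsum, pow_add] at h1
    rw [hP, hQ]; linarith
  have hP3 : (X : ℝ) ^ 2 ≤ 256 * P ^ 3 := by
    calc (X : ℝ) ^ 2 ≤ (16 * (P * Q)) ^ 2 := by gcongr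
      _ = 256 * (P ^ 2 * Q ^ 2) := by ring
      _ ≤ 256 * (P ^ 2 * P) := by gcongr
      _ = 256 * P ^ 3 := by ring
  have hbP : b ≤ P := by
    have h1 : b ^ 3 ≤ P ^ 3 := by
      have h2 : b ^ 3 = (√X) ^ 3 * L ^ (3 * D) := by
        rw [hb, mul_pow, ← pow_mul, mul_comm D 3]
      have h3 : √(X : ℝ) ^ 4 = (X : ℝ) ^ 2 := by
        calc √(X : ℝ) ^ 4 = (√(X : ℝ) ^ 2) ^ 2 := by ring
          _ = (X : ℝ) ^ 2 := by rw [Real.sq_sqrt hXp.le]
      have h4 : 256 * L ^ (3 * D) ≤ √X := by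
        rw [Real.sqrt_eq_rpow]; exact hpow
      have h5 : 256 * b ^ 3 ≤ 256 * P ^ 3 := by
        calc 256 * b ^ 3 = (√X) ^ 3 * (256 * L ^ (3 * D)) := by rw [h2]; ring
          _ ≤ (√X) ^ 3 * √X := by gcongr
          _ = (X : ℝ) ^ 2 := by rw [← h3]; ring
          _ ≤ 256 * P ^ 3 := hP3
      linarith
    exact le_of_pow_le_pow_left₀ (by norm_num) hPpos.le h1
  have heL : 1 + ∑ i ∈ S, (e i : ℝ) ≤ 4 * L := by
    have h1 := sum_le_log hX0 hL5 heX
    have h2 : ((∑ i ∈ S, e i : ℕ) : ℝ) ≤ ((∑ i, e i : ℕ) : ℝ) := by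
      exact_mod_cast (by omega : ∑ i ∈ S, e i ≤ ∑ i, e i)
    push_cast at h1 h2 ⊢
    linarith
  -- the second moment of the other blocks
  have hI := rg_sq_int hBkb hC χ e S a b hb1
  have hI2 : ∫ t : ℝ, rg a b (fun t => ∏ i ∈ S, bk χ i (e i) t) t ^ 2 ≤ 2 * C * (4 * L) ^ C := by
    refine hI.trans ?_
    have h1 : b / 2 ^ (∑ i ∈ S, e i) ≤ 1 := by
      rw [← hP]; exact (div_le_one hPpos).2 hbP
    have h0 : 0 ≤ 1 + ∑ i ∈ S, (e i : ℝ) := by positivity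
    calc (C : ℝ) * (b / 2 ^ (∑ i ∈ S, e i) + 1) * (1 + ∑ i ∈ S, (e i : ℝ)) ^ C
        ≤ C * (1 + 1) * (4 * L) ^ C := by gcongr
      _ = 2 * C * (4 * L) ^ C := by ring
  -- the long block
  have hl2 : 2 ^ e l ≤ 1024 * X := by
    refine le_trans (Nat.pow_le_pow_right (by norm_num) ?_) heX
    omega
  have hM := fun c => hB1 B1 hB1' X hX1 q χ l (e l) W c hq hl4 hXl hl2 hW1 hW2
  obtain ⟨hN1, hN2, hN3, -⟩ := hNqp W hW1
  obtain ⟨-, -, -, -, hF5, -⟩ := hNfb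
  have hNFA : NF (rg a b (bk χ l (e l))) := hF5 a b _ (hBkb.2.2.1 q χ l (e l))
  have hNFB : NF (rg a b (fun t => ∏ i ∈ S, bk χ i (e i) t)) :=
    hF5 a b _ (cont_prod hBkb χ e S)
  have h3 := hN3 (rg a b (bk χ l (e l))) (rg a b (fun t => ∏ i ∈ S, bk χ i (e i) t))
    (1 / L ^ (A + C + 1)) hNFA hNFB (by positivity) hM
  have hfun : rg a b (PP8 χ e) = fun s => rg a b (bk χ l (e l)) s *
      rg a b (fun t => ∏ i ∈ S, bk χ i (e i) t) s := by
    funext s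
    rw [PP8_split χ e l]
    exact rg_mul a b _ _ s
  rw [hfun]
  refine h3.trans ?_
  calc 2 * (1 / L ^ (A + C + 1)) *
        ∫ s : ℝ, rg a b (fun t => ∏ i ∈ S, bk χ i (e i) t) s ^ 2
      ≤ 2 * (1 / L ^ (A + C + 1)) * (2 * C * (4 * L) ^ C) := by gcongr
    _ = (4 * C * 4 ^ C / L) * (1 / L ^ A) := by
        rw [mul_pow, pow_add, pow_add, pow_one]
        field_simp
        ring
    _ ≤ 1 * (1 / L ^ A) := by
        gcongr
        rw [div_le_one hLpos]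
        linarith
    _ = 1 / L ^ A := one_mul _

end Pool.Agent.Helper78.GW
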