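import Pool.Agent.Helper63.GW.StB

/-! # Project GW: lemmas for CL1, CL3 (helper78) -/

set_option autoImplicit false

namespace Pool.Agent.Helper78.GW

open Finset ArithmeticFunction MeasureTheory Filter
open Pool.Agent.Helper23.GK
open Pool.Agent.Helper63.GW

lemma ev_pow (c : ℝ) (hc : 0 < c) (K : ℝ) (m : ℕ) :
    ∀ᶠ X : ℕ in atTop, K * Real.log X ^ m ≤ (X : ℝ) ^ c := by
  have h1 := (isLittleO_log_rpow_rpow_atTop (m : ℝ) hc).comp_tendsto
    (tendsto_natCast_atTop_atTop (R := ℝ))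
  have h2 := h1.bound (c := 1 / (|K| + 1)) (by positivity)
  filter_upwards [h2, eventually_ge_atTop 1] with X hX hX1
  have hX1' : (1 : ℝ) ≤ X := by exact_mod_cast hX1
  have hL : 0 ≤ Real.log X := Real.log_nonneg hX1'
  simp only [Function.comp_apply, Real.norm_eq_abs, Real.rpow_natCast] at hX
  rw [abs_of_nonneg (pow_nonneg hL m), abs_of_nonneg (Real.rpow_nonneg (by linarith) c)] at hX
  have hK : 0 < |K| + 1 := by positivity
  have h3 : (|K| + 1) * Real.log X ^ m ≤ (X : ℝ) ^ c := by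
    calc (|K| + 1) * Real.log X ^ m ≤ (|K| + 1) * (1 / (|K| + 1) * (X : ℝ) ^ c) := by gcongr
      _ = (X : ℝ) ^ c := by field_simp
  refine le_trans ?_ h3
  have h4 : K ≤ |K| + 1 := by linarith [le_abs_self K]
  exact mul_le_mul_of_nonneg_right h4 (pow_nonneg hL m)

lemma ev_log (K : ℝ) : ∀ᶠ X : ℕ in atTop, K ≤ Real.log X :=
  (Real.tendsto_log_atTop.comp (tendsto_natCast_atTop_atTop (R := ℝ))).eventually_ge_atTop K

lemma sum_le_log {X : ℕ} (hX : 1 ≤ X) (hL : 5 ≤ Real.log X) {e : Fin 8 → ℕ}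
    (h : 2 ^ (∑ i, e i) ≤ 1024 * X) : 1 + ((∑ i, e i : ℕ) : ℝ) ≤ 4 * Real.log X := by
  have h1 : ((2 : ℝ) ^ (∑ i, e i)) ≤ 1024 * X := by exact_mod_cast h
  have hXp : (0 : ℝ) < X := by exact_mod_cast hX
  have h2 := Real.log_le_log (by positivity) h1
  rw [Real.log_pow, Real.log_mul (by norm_num) hXp.ne'] at h2
  have h3 : Real.log 1024 = 10 * Real.log 2 := by
    rw [show (1024 : ℝ) = 2 ^ 10 by norm_num, Real.log_pow]; norm_num
  have h4 := Real.log_two_gt_d9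
  have h5 := Real.log_two_lt_d9
  rw [h3] at h2
  have h6 : ((∑ i, e i : ℕ) : ℝ) * 0.6931 ≤ 7 + Real.log X := by
    have h7 : ((∑ i, e i : ℕ) : ℝ) * 0.6931 ≤ ((∑ i, e i : ℕ) : ℝ) * Real.log 2 := by
      gcongr; linarith
    linarith
  nlinarith

lemma cont_prod (hBkb : StBkb) {q : ℕ} (χ : DirichletCharacter ℂ q) (e : Fin 8 → ℕ)
    (S : Finset (Fin 8)) : Continuous (fun t => ∏ i ∈ S, bk χ i (e i) t) :=
  continuous_finsetProd S (fun i _ => hBkb.2.2.1 q χ i (e i))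

/-- second moment on the range -/
lemma rg_sq_int (hBkb : StBkb) {C : ℕ} (hC : ∀ (q : ℕ) (χ : DirichletCharacter ℂ q)
    (e : Fin 8 → ℕ) (S : Finset (Fin 8)) (c T : ℝ), 1 ≤ T →
    ∫ t in (c - T)..(c + T), ∏ i ∈ S, ‖bk χ i (e i) t‖ ^ 2 ≤
      C * (T / 2 ^ (∑ i ∈ S, e i) + 1) * (1 + ∑ i ∈ S, (e i : ℝ)) ^ C)
    {q : ℕ} (χ : DirichletCharacter ℂ q) (e : Fin 8 → ℕ) (S : Finset (Fin 8)) (a b : ℝ)
    (hb : 1 ≤ b) :
    ∫ t : ℝ, rg a b (fun t => ∏ i ∈ S, bk χ i (e i) t) t ^ 2 ≤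
      C * (b / 2 ^ (∑ i ∈ S, e i) + 1) * (1 + ∑ i ∈ S, (e i : ℝ)) ^ C := by
  classical
  refine le_trans ?_ (hC q χ e S 0 b hb)
  have hcont : Continuous (fun t => ∏ i ∈ S, ‖bk χ i (e i) t‖ ^ 2) :=
    continuous_finsetProd S (fun i _ => ((hBkb.2.2.1 q χ i (e i)).norm.pow 2))
  have hbb : -b ≤ b := by linarith
  rw [zero_sub, zero_add, intervalIntegral.integral_of_le hbb, ← integral_Icc_eq_integral_Ioc,
    ← integral_indicator measurableSet_Icc]
  refine integral_mono_of_nonneg (Eventually.of_forall fun t => sq_nonneg _) ?_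
    (Eventually.of_forall fun t => ?_)
  · rw [integrable_indicator_iff measurableSet_Icc]
    exact hcont.continuousOn.integrableOn_Icc
  · simp only
    unfold rg
    by_cases h : a ≤ |t| ∧ |t| ≤ b
    · rw [if_pos h, Set.indicator_of_mem (show t ∈ Set.Icc (-b) b from abs_le.1 h.2), norm_prod,
        Finset.prod_pow]
    · rw [if_neg h]
      refine le_trans (by norm_num) (Set.indicator_nonneg (fun t _ => ?_) t)
      exact Finset.prod_nonneg fun i _ => by positivity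

lemma rg_mul (a b : ℝ) (f g : ℝ → ℂ) (t : ℝ) :
    rg a b (fun t => f t * g t) t = rg a b f t * rg a b g t := by
  unfold rg
  by_cases h : a ≤ |t| ∧ |t| ≤ b
  · simp only [if_pos h, norm_mul]
  · simp only [if_neg h, mul_zero]

lemma rg_nonneg (a b : ℝ) (f : ℝ → ℂ) (t : ℝ) : 0 ≤ rg a b f t := by
  unfold rg
  split_ifs
  · exact norm_nonneg _
  · exact le_rfl

lemma PP8_split {q : ℕ} (χ : DirichletCharacter ℂ q) (e : Fin 8 → ℕ) (l : Fin 8) :
    PP8 χ e = fun t => bk χ l (e l) t * ∏ i ∈ univ.erase l, bk χ i (e i) t := by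
  funext t
  unfold PP8
  exact (Finset.mul_prod_erase univ (fun i => bk χ i (e i) t) (mem_univ l)).symm

lemma sum_erase (e : Fin 8 → ℕ) (l : Fin 8) :
    e l + ∑ i ∈ univ.erase l, e i = ∑ i, e i := Finset.add_sum_erase univ e (mem_univ l)

end Pool.Agent.Helper78.GW
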